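import Mathlib

/-!
# Dyson Brownian motion edge limit (MP_c8b564_pr): definitions

The dynamical stochastic Airy operator `-d²/dx² + x + 2 ξ(t)` with an Ornstein-Uhlenbeck type
space-time white noise, and the stationary GOE matrix process.
-/

namespace Pool.Agent.W752.DB

open MeasureTheory ProbabilityTheory Filter Topology Set
open scoped ENNReal NNReal

open scoped ContDiff in
/-- The test functions `C_c^∞(0,∞)`, as functions on `ℝ` (they vanish on `(-∞,0]`). -/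
def TestSpace : Submodule ℝ (ℝ → ℝ) where
  carrier := {f | ContDiff ℝ ∞ f ∧ HasCompactSupport f ∧ tsupport f ⊆ Ioi 0}
  zero_mem' := by
    refine ⟨contDiff_const, HasCompactSupport.zero, ?_⟩
    simp [tsupport]
  add_mem' := by
    rintro f g ⟨h1, h2, h3⟩ ⟨k1, k2, k3⟩
    refine ⟨h1.add k1, h2.add k2, ?_⟩
    exact (tsupport_add f g).trans (union_subset h3 k3)
  smul_mem' := by
    rintro c f ⟨h1, h2, h3⟩
    refine ⟨contDiff_const.smul h1, h2.smul_left (f := fun _ => c), ?_⟩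
    exact (tsupport_smul_subset_right (fun _ => c) f).trans h3

open scoped ContDiff in
theorem mem_testSpace {f : ℝ → ℝ} :
    f ∈ TestSpace ↔ ContDiff ℝ ∞ f ∧ HasCompactSupport f ∧ tsupport f ⊆ Ioi 0 := Iff.rfl

/-- `∫_0^∞ f²`. -/
noncomputable def nrm2 (f : ℝ → ℝ) : ℝ := ∫ x in Ioi (0 : ℝ), f x ^ 2

/-- The deterministic part of the form: `∫_0^∞ (f'² + x f²)`. -/
noncomputable def free (f : ℝ → ℝ) : ℝ := ∫ x in Ioi (0 : ℝ), (deriv f x ^ 2 + x * f x ^ 2)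

/-- The quadratic form `⟨f, H f⟩ = ∫_0^∞ (f'² + x f²) + 2 ⟨T, f²⟩` of `H = -d²/dx² + x + 2 T`,
`T` a distribution (`2 = 2/√β`, `β = 1`). -/
noncomputable def form (T : (ℝ → ℝ) → ℝ) (f : ℝ → ℝ) : ℝ := free f + 2 * T (fun x => f x ^ 2)

/-- The `(j+1)`-st eigenvalue of `H = -d²/dx² + x + 2 T` on `(0,∞)`, Dirichlet condition at `0`
(Courant-Fischer over the form core `C_c^∞(0,∞)`): the infimum over `(j+1)`-dimensional spaces `V`
of test functions of the smallest `c` with `⟨f, H f⟩ ≤ c ‖f‖²` on `V`. -/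
noncomputable def lam (T : (ℝ → ℝ) → ℝ) (j : ℕ) : ℝ :=
  sInf {c : ℝ | ∃ V : Submodule ℝ (ℝ → ℝ), V ≤ TestSpace ∧ Module.finrank ℝ V = j + 1 ∧
    ∀ f ∈ V, form T f ≤ c * nrm2 f}

/-- `T` is the distributional derivative on `(0,∞)` of the function `W`, continuous on
`[0,∞)`. -/
def IsPrim (T : (ℝ → ℝ) → ℝ) (W : ℝ → ℝ) : Prop :=
  ContinuousOn W (Ici 0) ∧ ∀ g ∈ TestSpace, T g = -∫ x in Ioi (0 : ℝ), W x * deriv g x

/-- `ξ` is an Ornstein-Uhlenbeck space-time white noise on `(0,∞)` with rate function `a`: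
each `ξ t` is a random distribution on `(0,∞)` (the derivative of a continuous function on
`[0,∞)`, almost surely), the pairings with test functions form a centered Gaussian process, and
`E[⟨ξ s, f⟩ ⟨ξ t, g⟩] = ∫_0^∞ e^{-a(x)|t-s|} f g dx`. The noise `ξ_a` of the problem has
`a(x) = a x`. -/
structure IsOUNoise {Ω : Type*} [MeasurableSpace Ω] (a : ℝ → ℝ) (P : Measure Ω)
    (ξ : ℝ≥0 → Ω → (ℝ → ℝ) → ℝ) : Prop where
  prim : ∀ t, ∀ᵐ ω ∂P, ∃ W, IsPrim (ξ t ω) W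
  gaussian : IsGaussianProcess (fun (p : ℝ≥0 × TestSpace) ω => ξ p.1 ω p.2) P
  centered : ∀ t, ∀ f ∈ TestSpace, ∫ ω, ξ t ω f ∂P = 0
  cov : ∀ s t, ∀ f ∈ TestSpace, ∀ g ∈ TestSpace,
    ∫ ω, ξ s ω f * ξ t ω g ∂P = ∫ x in Ioi (0 : ℝ), Real.exp (-(a x * |(t : ℝ) - s|)) * (f x * g x)

/-- `M` is the stationary GOE matrix process `dM = -M dt + √2 dB_GOE` (`n × n`): symmetric, centered
Gaussian, `E[M_ij(s) M_kl(t)] = e^{-|t-s|} (δ_ik δ_jl + δ_il δ_jk)`. -/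
structure IsStationaryGOE {Ω : Type*} [MeasurableSpace Ω] (n : ℕ) (P : Measure Ω)
    (M : ℝ≥0 → Ω → Matrix (Fin n) (Fin n) ℝ) : Prop where
  symm : ∀ t ω, (M t ω).IsHermitian
  gaussian : IsGaussianProcess (fun (p : ℝ≥0 × Fin n × Fin n) ω => M p.1 ω p.2.1 p.2.2) P
  centered : ∀ t i j, ∫ ω, M t ω i j ∂P = 0
  cov : ∀ s t i j k l, ∫ ω, M s ω i j * M t ω k l ∂P =
    Real.exp (-|(t : ℝ) - s|) *
      ((if i = k ∧ j = l then 1 else 0) + (if i = l ∧ j = k then 1 else 0))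

/-- The `(j+1)`-st largest eigenvalue of a symmetric matrix (junk value `0` if there is none). -/
noncomputable def topEig {n : ℕ} (A : Matrix (Fin n) (Fin n) ℝ) (j : ℕ) : ℝ :=
  if h : A.IsHermitian ∧ j < Fintype.card (Fin n) then h.1.eigenvalues₀ ⟨j, h.2⟩ else 0

/-- The sum of the `k` largest eigenvalues. -/
noncomputable def topSum {n : ℕ} (A : Matrix (Fin n) (Fin n) ℝ) (k : ℕ) : ℝ :=
  ∑ j ∈ Finset.range k, topEig A j

/-- The rescaled edge point `n^{1/6} (2√n - λ_{j+1}^{(n)}(t / (2 n^{1/3})))`. -/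
noncomputable def edge {Ω : Type*} {n : ℕ} (M : ℝ≥0 → Ω → Matrix (Fin n) (Fin n) ℝ)
    (t : ℝ≥0) (j : ℕ) (ω : Ω) : ℝ :=
  (n : ℝ) ^ (1 / 6 : ℝ) * (2 * √(n : ℝ) - topEig (M (t / (2 * (n : ℝ≥0) ^ (1 / 3 : ℝ))) ω) j)

/-- An orthonormal family (in `L²(0,∞)`) of `k` test functions. -/
def IsFrame {k : ℕ} (F : Fin k → ℝ → ℝ) : Prop :=
  (∀ i, F i ∈ TestSpace) ∧ ∀ i j, ∫ x in Ioi (0 : ℝ), F i x * F j x = if i = j then 1 else 0

/-- The test function `Σ f_i²`. -/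
noncomputable def dens {k : ℕ} (F : Fin k → ℝ → ℝ) : ℝ → ℝ := fun x => ∑ i, F i x ^ 2

end Pool.Agent.W752.DB
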