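import Pool.Agent.W752.DB.Defs

/-!
# Dyson Brownian motion edge limit (MP_c8b564_pr): statements of the pieces
-/

namespace Pool.Agent.W752.DB

open MeasureTheory ProbabilityTheory Filter Topology Set
open scoped ENNReal NNReal

/-- DB-FORM: deterministic form bound from an oscillation bound. -/
def S_FORM : Prop :=
  ∀ (W : ℝ → ℝ) (C : ℝ), ContinuousOn W (Ici 0) → 0 ≤ C →
    (∀ m : ℕ, ∀ x ∈ Icc (m : ℝ) (m + 1), (W x - W m) ^ 2 ≤ C + m / 66) →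
    ∀ f ∈ TestSpace, |2 * ∫ x in Ioi (0 : ℝ), W x * deriv (fun y => f y ^ 2) x| ≤
      free f / 2 + (33 * C + 1) * nrm2 f

/-- DB-INC: increments of the primitive of white noise have fourth moment at most
`3 (y-x)²`. -/
def S_INC.{u} : Prop :=
  ∀ (Ω : Type u) [MeasurableSpace Ω] (P : Measure Ω) [IsProbabilityMeasure P]
    (T : Ω → (ℝ → ℝ) → ℝ),
    (∀ g ∈ TestSpace, AEMeasurable (fun ω => T ω g) P) →
    (∀ g ∈ TestSpace, P.map (fun ω => T ω g) = gaussianReal 0 (nrm2 g).toNNReal) →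
    (∀ᵐ ω ∂P, ∃ W, IsPrim (T ω) W) →
    ∀ x y : ℝ, 0 ≤ x → x < y → ∃ D : Ω → ℝ, AEMeasurable D P ∧
      (∀ᵐ ω ∂P, ∀ W, IsPrim (T ω) W → W y - W x = D ω) ∧
      ∫⁻ ω, ENNReal.ofReal (D ω ^ 4) ∂P ≤ ENNReal.ofReal (3 * (y - x) ^ 2)

/-- DB-CHAIN: dyadic chaining and Borel-Cantelli. -/
def S_CHAIN.{u} : Prop :=
  ∀ (Ω : Type u) [MeasurableSpace Ω] (P : Measure Ω) [IsProbabilityMeasure P]
    (K : Ω → Set (ℝ → ℝ)) (D : ℝ → ℝ → Ω → ℝ),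
    (∀ ω, ∀ W ∈ K ω, ContinuousOn W (Ici 0)) →
    (∀ x y : ℝ, 0 ≤ x → x < y → AEMeasurable (D x y) P) →
    (∀ x y : ℝ, 0 ≤ x → x < y → ∀ᵐ ω ∂P, ∀ W ∈ K ω, W y - W x = D x y ω) →
    (∀ x y : ℝ, 0 ≤ x → x < y →
      ∫⁻ ω, ENNReal.ofReal (D x y ω ^ 4) ∂P ≤ ENNReal.ofReal (3 * (y - x) ^ 2)) →
    ∀ᵐ ω ∂P, ∀ W ∈ K ω, ∃ C, 0 ≤ C ∧
      ∀ m : ℕ, ∀ x ∈ Icc (m : ℝ) (m + 1), (W x - W m) ^ 2 ≤ C + m / 66

/-- DB-ENERGY: a frame of small energy has most of its mass in `[1,R]`. -/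
def S_ENERGY : Prop :=
  ∀ (k : ℕ) (F : Fin k → ℝ → ℝ), IsFrame F → ∀ A : ℝ, ∑ i, free (F i) ≤ A →
    ∀ N : ℕ, 1 ≤ N → ∀ R : ℝ, 1 ≤ R →
      (k : ℝ) - N - A / (N : ℝ) ^ 2 - A / R ≤ ∫ x in Icc 1 R, dens F x

/-- DB-TRIAL: a frame of energy `O(k^{5/3})`. -/
def S_TRIAL : Prop :=
  ∃ c₀ : ℝ, ∀ k : ℕ, 1 ≤ k → ∃ F : Fin k → ℝ → ℝ, IsFrame F ∧
    ∑ i, free (F i) ≤ c₀ * (k : ℝ) ^ (5 / 3 : ℝ)

/-- DB-DENSE: a countable family of frames which is dense for all forms at once. -/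
def S_DENSE : Prop :=
  ∀ k : ℕ, ∃ 𝓕 : ℕ → Fin k → ℝ → ℝ, (∀ l, IsFrame (𝓕 l)) ∧
    ∀ (T : (ℝ → ℝ) → ℝ) (W : ℝ → ℝ), IsPrim T W → ∀ F : Fin k → ℝ → ℝ, IsFrame F →
      ∀ ε : ℝ, 0 < ε → ∃ l, ∑ i, form T (𝓕 l i) ≤ ∑ i, form T (F i) + ε

/-- DB-KF: Ky Fan's variational principle for forms bounded below. -/
def S_KF.{u} : Prop :=
  ∀ (E : Type u) [NormedAddCommGroup E] [InnerProductSpace ℝ E] (q : E →ₗ[ℝ] E →ₗ[ℝ] ℝ),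
    (∀ x y, q x y = q y x) → (∃ C : ℝ, ∀ x, -C * ‖x‖ ^ 2 ≤ q x x) →
    ¬ FiniteDimensional ℝ E → ∀ k : ℕ,
      IsGLB {c : ℝ | ∃ F : Fin k → E, Orthonormal ℝ F ∧ c = ∑ i, q (F i) (F i)}
        (∑ j ∈ Finset.range k, sInf {c : ℝ | ∃ V : Submodule ℝ E,
          Module.finrank ℝ V = j + 1 ∧ ∀ f ∈ V, q f f ≤ c * ‖f‖ ^ 2})

/-- DB-KFT: the same for the form of `-d²/dx² + x + 2 T` on test functions (from DB-KF). -/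
def S_KFT : Prop :=
  ∀ (T : (ℝ → ℝ) → ℝ) (W : ℝ → ℝ), IsPrim T W →
    (∃ C : ℝ, ∀ f ∈ TestSpace, -C * nrm2 f ≤ form T f) → ∀ k : ℕ,
      IsGLB {c : ℝ | ∃ F : Fin k → ℝ → ℝ, IsFrame F ∧ c = ∑ i, form T (F i)}
        (∑ j ∈ Finset.range k, lam T j)

/-- DB-LAW: a centered Gaussian family is invariant in law under the reflection in the direction
of a Gaussian variable `Y`. -/
def S_LAW.{u} : Prop :=
  ∀ (Ω : Type u) [MeasurableSpace Ω] (P : Measure Ω) [IsProbabilityMeasure P]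
    (ι : Type) [Countable ι] (U : ι → Ω → ℝ) (Y : Ω → ℝ) (g : ι → ℝ) (v : ℝ),
    IsGaussianProcess (fun (o : Option ι) ω => Option.elim o (Y ω) (fun i => U i ω)) P →
    (∀ i, ∫ ω, U i ω ∂P = 0) → ∫ ω, Y ω ∂P = 0 → (∀ i, ∫ ω, U i ω * Y ω ∂P = g i) →
    ∫ ω, Y ω ^ 2 ∂P = v → 0 < v →
    P.map (fun ω i => U i ω) = P.map (fun ω i => U i ω - 2 * (g i / v) * Y ω)

/-- DB-M1: Ky Fan's inequality for symmetric matrices. -/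
def S_M1 : Prop :=
  ∀ (n k : ℕ), k ≤ n → ∀ A : Matrix (Fin n) (Fin n) ℝ, A.IsHermitian →
    ∃ Q : Matrix (Fin n) (Fin n) ℝ, Q.IsHermitian ∧ (∑ i, ∑ j, Q i j ^ 2 = (k : ℝ)) ∧
      (Q * A).trace = topSum A k ∧
      ∀ B : Matrix (Fin n) (Fin n) ℝ, B.IsHermitian → (Q * B).trace ≤ topSum B k

/-- DB-M2: rotating an independent pair of Gaussian vectors. -/
def S_M2.{u} : Prop :=
  ∀ (E : Type u) [NormedAddCommGroup E] [NormedSpace ℝ E] [MeasurableSpace E] [BorelSpace E]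
    [SecondCountableTopology E] [CompleteSpace E] (μ : Measure E) [IsGaussian μ],
    ∫ x, x ∂μ = 0 → ∀ (S : E → ℝ) (κ : ℝ), Continuous S → (∃ C, ∀ x, |S x| ≤ C * ‖x‖) →
    (∀ x, ∃ L : E →L[ℝ] ℝ, L x = S x ∧ (∀ y, L y ≤ S y) ∧ ∫ z, L z ^ 2 ∂μ ≤ κ) →
    ∀ θ : ℝ, 0 ≤ θ →
      ∫ p, (S (Real.cos θ • p.1 + Real.sin θ • p.2) - S p.1) ^ 2 ∂(μ.prod μ) ≤ 2 * κ * θ ^ 2

/-- DB-M3: the increments of the sum of the top `k` eigenvalues of the stationary GOE process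
(from DB-M1, DB-M2). -/
def S_M3.{u} : Prop :=
  ∀ (Ω : Type u) [MeasurableSpace Ω] (P : Measure Ω) (n k : ℕ)
    (M : ℝ≥0 → Ω → Matrix (Fin n) (Fin n) ℝ), k ≤ n → IsStationaryGOE n P M → ∀ s t : ℝ≥0,
    ∫⁻ ω, ENNReal.ofReal ((topSum (M t ω) k - topSum (M s ω) k) ^ 2) ∂P ≤
      ENNReal.ofReal (20 * k * |(t : ℝ) - s|)

/-- DB-MM: the eigenvalues are measurable functions of the matrix (from DB-M1). -/
def S_MM : Prop :=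
  ∀ (n j : ℕ), Measurable (fun A : Fin n → Fin n → ℝ =>
    topEig ((1 / 2 : ℝ) • (Matrix.of A + (Matrix.of A).transpose)) j)

/-- DB-FATOU: second moments under convergence in distribution. -/
def S_FATOU.{u, v} : Prop :=
  ∀ (Ω : ℕ → Type u) [∀ n, MeasurableSpace (Ω n)] (P : ∀ n, Measure (Ω n))
    [∀ n, IsProbabilityMeasure (P n)] (Ω' : Type v) [MeasurableSpace Ω'] (P' : Measure Ω')
    [IsProbabilityMeasure P'] (ι : Type) [Fintype ι] (X : (n : ℕ) → Ω n → ι → ℝ)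
    (Z : Ω' → ι → ℝ), TendstoInDistribution X atTop Z P P' →
    ∀ G : (ι → ℝ) → ℝ, Continuous G → ∀ B : ℝ≥0∞,
      (∀ᶠ n in atTop, ∫⁻ ω, ENNReal.ofReal (G (X n ω) ^ 2) ∂(P n) ≤ B) →
      ∫⁻ ω, ENNReal.ofReal (G (Z ω) ^ 2) ∂P' ≤ B

/-- DB-NUM: the final comparison of sizes. -/
def S_NUM : Prop :=
  ∀ a : ℝ → ℝ, ContinuousOn a (Ioi 0) → (∀ x, 0 < x → 0 < a x) →
    Tendsto (fun x => a x * √x) atTop atTop → ∀ c τ : ℝ, 0 < c → 0 < τ →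
    ∀ᶠ k : ℕ in atTop,
      640 * (2 * (c * (k : ℝ) ^ (2 / 3 : ℝ)) * τ +
        ∫ x in Icc (1 / 2 : ℝ) (2 * (c * (k : ℝ) ^ (2 / 3 : ℝ))), 1 / a x) < k

/-- DB-ETA: the test function `h = η / (1 - e^{-τ a})` and a bound for `∫ η h`. -/
def S_ETA : Prop :=
  ∀ a : ℝ → ℝ, ContDiffOn ℝ ((⊤ : ℕ∞) : WithTop ℕ∞) a (Ioi 0) → (∀ x, 0 < x → 0 < a x) →
    ∀ τ R : ℝ, 0 < τ → 1 ≤ R → ∃ η ∈ TestSpace, ∃ h ∈ TestSpace,
      (∀ x, 0 ≤ η x) ∧ (∀ x, η x ≤ 1) ∧ (∀ x ∈ Icc 1 R, η x = 1) ∧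
      (∀ x, 0 < x → h x * (1 - Real.exp (-(a x * τ))) = η x) ∧
      (0 < ∫ x in Ioi (0 : ℝ), η x * h x) ∧
      τ * ∫ x in Ioi (0 : ℝ), η x * h x ≤
        2 * R * τ + ∫ x in Icc (1 / 2 : ℝ) (2 * R), 1 / a x

/-- DB-GAUSS: a centered Gaussian exceeds half its standard deviation with probability at least
`1/4`. -/
def S_GAUSS : Prop :=
  ∀ v : ℝ≥0, v ≠ 0 → (1 / 4 : ℝ≥0∞) ≤ gaussianReal 0 v {y : ℝ | √(v : ℝ) / 2 ≤ y}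

/-- The final statement: for rate functions `a` with `a(x) √x → ∞` and two times `s ≠ t`, for all
large `k` the two-time edge vectors do not converge in distribution to the lowest `k` eigenvalues of
`-d²/dx² + x + 2 ξ`. -/
def S_MAIN.{u, v} : Prop :=
  ∀ a : ℝ → ℝ, ContDiffOn ℝ ((⊤ : ℕ∞) : WithTop ℕ∞) a (Ioi 0) → (∀ x, 0 < x → 0 < a x) →
    Tendsto (fun x => a x * √x) atTop atTop →
    ∀ (Ω : ℕ → Type u) [∀ n, MeasurableSpace (Ω n)] (P : ∀ n, Measure (Ω n))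
      [∀ n, IsProbabilityMeasure (P n)] (M : ∀ n, ℝ≥0 → Ω n → Matrix (Fin n) (Fin n) ℝ)
      (Ω' : Type v) [MeasurableSpace Ω'] (P' : Measure Ω') [IsProbabilityMeasure P']
      (ξ : ℝ≥0 → Ω' → (ℝ → ℝ) → ℝ),
      (∀ n, IsStationaryGOE n (P n) (M n)) → IsOUNoise a P' ξ →
      ∀ s t : ℝ≥0, s ≠ t → ∀ᶠ k : ℕ in atTop,
        (∀ n, AEMeasurable (fun ω (p : Fin 2 × Fin k) => edge (M n) (![s, t] p.1) p.2 ω) (P n)) ∧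
        AEMeasurable (fun ω (p : Fin 2 × Fin k) => lam (ξ (![s, t] p.1) ω) p.2) P' ∧
        ¬ TendstoInDistribution
            (fun n ω (p : Fin 2 × Fin k) => edge (M n) (![s, t] p.1) p.2 ω) atTop
            (fun ω (p : Fin 2 × Fin k) => lam (ξ (![s, t] p.1) ω) p.2) P P'

end Pool.Agent.W752.DB
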